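import Pool.Agent.H31.DPD.Targets
import Pool.Agent.H33.DP.SQ

/-!
# Dilation by `p` (row SQ)
-/

set_option autoImplicit false

open Finset

namespace Pool.Agent.H3.DPD

open Pool.Agent.H31.DP Pool.Agent.H31.DPD
open Pool.Agent.H33.DP (sq_FF)

theorem sq_sI {d : ℕ} (p : ℤ) (s : Fin d → ℤ) (I : Finset (Fin d)) :
    sI (fun i => p * s i) I = p * sI s I := by
  unfold sI
  rw [Finset.mul_sum]

theorem sq_le {p M : ℕ} (hp : 0 < p) (z : ℤ) : (p : ℤ) * z ≤ M ↔ z ≤ ((M / p : ℕ) : ℤ) := by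
  have hpZ : (0 : ℤ) < (p : ℤ) := by exact_mod_cast hp
  have h1 : ((M / p : ℕ) : ℤ) = (M : ℤ) / (p : ℤ) := by push_cast; rfl
  rw [h1, Int.le_ediv_iff_mul_le hpZ, mul_comm]

theorem sq_one {p : ℕ} (hp : 0 < p) (z : ℤ) : 1 ≤ (p : ℤ) * z ↔ 1 ≤ z := by
  have hpZ : (0 : ℤ) < (p : ℤ) := by exact_mod_cast hp
  constructor
  · intro h
    by_contra hc
    have : (p : ℤ) * z ≤ (p : ℤ) * 0 := mul_le_mul_of_nonneg_left (by omega) hpZ.le
    omega
  · intro h
    have : (p : ℤ) * 1 ≤ (p : ℤ) * z := mul_le_mul_of_nonneg_left h hpZ.le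
    omega

theorem sq_GC {l d : ℕ} (h : Fin l → ℕ) {p : ℕ} (hp : p.Prime) (hd : 0 < d) (s : Fin d → ℤ)
    (y : ℤ) : GC h p (fun i => (p : ℤ) * s i) ((p : ℤ) * y) = GC h 1 s y := by
  unfold GC
  have h1 : ∀ I : Finset (Fin d), FF h p ((p : ℤ) * y + sI (fun i => (p : ℤ) * s i) I) =
      (-1) ^ l * FF h 1 (y + sI s I) := by
    intro I
    rw [sq_sI, ← mul_add, sq_FF h hp]
  rw [Finset.prod_congr rfl (fun I _ => h1 I), Finset.prod_mul_distrib, Finset.prod_const,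
    Finset.card_univ, Fintype.card_finset, Fintype.card_fin]
  obtain ⟨e, rfl⟩ : ∃ e, d = e + 1 := ⟨d - 1, by omega⟩
  have h2 : (((-1 : ℝ) ^ l) ^ (2 ^ (e + 1))) = 1 := by
    rw [← pow_mul, pow_succ, ← mul_assoc, mul_comm _ 2, pow_mul]
    simp
  rw [h2, one_mul]

theorem sq_mem_mul {p M : ℕ} (hp : 0 < p) (z : ℤ) :
    (p : ℤ) * z ∈ mul p M ↔ z ∈ mul 1 (M / p) := by
  have h1 := sq_le (M := M) hp z
  have h2 := sq_le (M := M) hp (-z)
  simp only [mul, Finset.mem_filter, Finset.mem_Icc, dvd_mul_right, and_true, Nat.cast_one,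
    one_dvd]
  rw [h1]
  rw [mul_neg] at h2
  constructor
  · rintro ⟨h3, h4⟩
    have := h2.1 (by omega)
    exact ⟨by omega, h4⟩
  · rintro ⟨h3, h4⟩
    have := h2.2 (by omega)
    exact ⟨by omega, h4⟩

theorem sq_mem_IC {d p M : ℕ} (hp : 0 < p) (s : Fin d → ℤ) (y : ℤ) :
    (p : ℤ) * y ∈ IC M (fun i => (p : ℤ) * s i) ↔ y ∈ IC (M / p) s := by
  simp only [IC, Finset.mem_filter, Finset.mem_Icc, sq_sI, ← mul_add, sq_le hp, sq_one hp]

theorem pf_SQ : P_SQ := by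
  intro d l h p M γ hd hp
  have hp0 : 0 < p := hp.pos
  have hpZ : (0 : ℤ) < (p : ℤ) := by exact_mod_cast hp0
  have hpR : (p : ℝ) ≠ 0 := by exact_mod_cast hp0.ne'
  unfold RCc
  refine Finset.sum_bij' (fun s _ => fun i => (p : ℤ) * s i) (fun s _ => fun i => s i / (p : ℤ))
    ?_ ?_ ?_ ?_ ?_
  · intro s hs
    rw [mulc, Fintype.mem_piFinset] at hs ⊢
    intro i
    exact (sq_mem_mul hp0 _).2 (hs i)
  · intro s hs
    rw [mulc, Fintype.mem_piFinset] at hs ⊢
    intro i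
    have h1 := hs i
    have h2 : (p : ℤ) ∣ s i := (Finset.mem_filter.1 h1).2
    rw [← sq_mem_mul hp0, Int.mul_ediv_cancel' h2]
    exact h1
  · intro s hs
    funext i
    exact Int.mul_ediv_cancel_left _ hpZ.ne'
  · intro s hs
    rw [mulc, Fintype.mem_piFinset] at hs
    funext i
    have h2 : (p : ℤ) ∣ s i := (Finset.mem_filter.1 (hs i)).2
    exact Int.mul_ediv_cancel' h2
  · intro s hs
    have h1 : CBc h p M (fun i => (p : ℤ) * s i) = CAc h 1 (M / p) s := by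
      unfold CBc CAc
      symm
      refine Finset.sum_bij' (fun y _ => (p : ℤ) * y) (fun y _ => y / (p : ℤ)) ?_ ?_ ?_ ?_ ?_
      · intro y hy
        rw [Finset.mem_filter]
        exact ⟨(sq_mem_IC hp0 s y).2 hy, Dvd.intro _ rfl⟩
      · intro y hy
        rw [Finset.mem_filter] at hy
        rw [← sq_mem_IC hp0, Int.mul_ediv_cancel' hy.2]
        exact hy.1
      · intro y hy
        exact Int.mul_ediv_cancel_left _ hpZ.ne'
      · intro y hy
        rw [Finset.mem_filter] at hy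
        exact Int.mul_ediv_cancel' hy.2
      · intro y hy
        rw [sq_GC h hp hd]
    rw [h1]
    congr 2
    rw [Finset.prod_mul_distrib, Finset.prod_const, Finset.card_univ, Fintype.card_fin]
    push_cast
    rw [one_pow]
    field_simp

end Pool.Agent.H3.DPD
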