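import Pool.Agent.H31.DPD.Targets
import Pool.Agent.H39.DP.ND

/-!
# The iterated difference of `1 / x ^ d` over a nondegenerate cube (row ND)
-/

set_option autoImplicit false

open Finset

namespace Pool.Agent.H3.DPD

open Pool.Agent.H31.DP Pool.Agent.H31.DPD
open Pool.Agent.H24.T2 (cub)
open Pool.Agent.H39.DP (dl_rat)

/-- The integral representation. -/
theorem nd_int (n : ℕ) : ∀ (A : Finset ℤ) (t : Fin n → ℤ) (p : ℤ) (φ : ℤ → ℝ) (w : ℝ → ℝ),
    p ∈ cub n A t →
    (∀ x ∈ A, MeasureTheory.IntegrableOn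
      (fun u : ℝ => Real.exp (-((x : ℝ) * u)) * w u) (Set.Ioi 0) ∧
      φ x = ∫ u in Set.Ioi (0 : ℝ), Real.exp (-((x : ℝ) * u)) * w u) →
    MeasureTheory.IntegrableOn (fun u : ℝ => Real.exp (-((p : ℝ) * u)) *
      (w u * ∏ i, (1 - Real.exp (-((t i : ℝ) * u))))) (Set.Ioi 0) ∧
      dl n t φ p = ∫ u in Set.Ioi (0 : ℝ), Real.exp (-((p : ℝ) * u)) *
        (w u * ∏ i, (1 - Real.exp (-((t i : ℝ) * u)))) := by
  induction n with
  | zero =>
    intro A t p φ w hp h
    simpa [dl] using h p hp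
  | succ n ih =>
    intro A t p φ w hp h
    have h0 := ih (A.filter (fun n => n + t 0 ∈ A)) (Fin.tail t) p (fun x => φ x - φ (x + t 0))
      (fun u => w u * (1 - Real.exp (-((t 0 : ℝ) * u)))) hp ?_
    · have e : ∀ u : ℝ, w u * ∏ i, (1 - Real.exp (-((t i : ℝ) * u))) =
          w u * (1 - Real.exp (-((t 0 : ℝ) * u))) *
            ∏ i, (1 - Real.exp (-((Fin.tail t i : ℤ) * u))) := by
        intro u
        rw [Fin.prod_univ_succ, mul_assoc]
        rfl
      simp only [e]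
      exact h0
    · intro x hx
      rw [Finset.mem_filter] at hx
      obtain ⟨h1, h2⟩ := h x hx.1
      obtain ⟨h1', h2'⟩ := h (x + t 0) hx.2
      have e : (fun u : ℝ => Real.exp (-((x : ℝ) * u)) *
            (w u * (1 - Real.exp (-((t 0 : ℝ) * u))))) =
          fun u => Real.exp (-((x : ℝ) * u)) * w u -
            Real.exp (-(((x + t 0 : ℤ) : ℝ) * u)) * w u := by
        funext u
        have h3 : Real.exp (-(((x + t 0 : ℤ) : ℝ) * u)) =
            Real.exp (-((x : ℝ) * u)) * Real.exp (-((t 0 : ℝ) * u)) := by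
          rw [← Real.exp_add]
          push_cast
          congr 1
          ring
        rw [h3]
        ring
      rw [e]
      refine ⟨h1.sub h1', ?_⟩
      show φ x - φ (x + t 0) = _
      rw [h2, h2', ← MeasureTheory.integral_sub h1 h1']

/-- The value at a positive integer. -/
theorem nd_inv (d : ℕ) (hd : 0 < d) (x : ℤ) (hx : 0 < x) :
    MeasureTheory.IntegrableOn (fun u : ℝ => Real.exp (-((x : ℝ) * u)) *
      (u ^ ((d : ℝ) - 1) / Real.Gamma d)) (Set.Ioi 0) ∧
    1 / (x : ℝ) ^ d = ∫ u in Set.Ioi (0 : ℝ), Real.exp (-((x : ℝ) * u)) *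
      (u ^ ((d : ℝ) - 1) / Real.Gamma d) := by
  have hd' : (0 : ℝ) < d := by exact_mod_cast hd
  have hx' : (0 : ℝ) < x := by exact_mod_cast hx
  have hG : 0 < Real.Gamma d := Real.Gamma_pos_of_pos hd'
  have h1 : ∫ u in Set.Ioi (0 : ℝ), Real.exp (-((x : ℝ) * u)) *
      (u ^ ((d : ℝ) - 1) / Real.Gamma d) = 1 / (x : ℝ) ^ d := by
    have e : (fun u : ℝ => Real.exp (-((x : ℝ) * u)) * (u ^ ((d : ℝ) - 1) / Real.Gamma d)) =
        fun u => (Real.Gamma d)⁻¹ * (u ^ ((d : ℝ) - 1) * Real.exp (-((x : ℝ) * u))) := by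
      funext u
      ring
    rw [e, MeasureTheory.integral_const_mul, Real.integral_rpow_mul_exp_neg_mul_Ioi hd' hx']
    rw [Real.rpow_natCast, one_div, inv_pow, one_div]
    field_simp
  refine ⟨?_, h1.symm⟩
  by_contra hc
  have h2 := MeasureTheory.integral_undef hc
  rw [h1] at h2
  have h3 : (0 : ℝ) < 1 / (x : ℝ) ^ d := by positivity
  exact h3.ne' h2

/-- The sign of the product. -/
theorem nd_sign {n : ℕ} (t : Fin n → ℤ) (ht : ∀ i, t i ≠ 0) :
    ∃ σ : ℝ, ∀ u ∈ Set.Ioi (0 : ℝ), 0 < σ * ∏ i, (1 - Real.exp (-((t i : ℝ) * u))) := by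
  refine ⟨∏ i, (if 0 < t i then (1 : ℝ) else -1), fun u hu => ?_⟩
  have hu0 : (0 : ℝ) < u := hu
  rw [← Finset.prod_mul_distrib]
  apply Finset.prod_pos
  intro i _
  split_ifs with h
  · have h1 : (0 : ℝ) < t i := by exact_mod_cast h
    rw [one_mul, sub_pos, Real.exp_lt_one_iff]
    have := mul_pos h1 hu0
    linarith
  · have h1 : (t i : ℝ) < 0 := by
      have : t i < 0 := by
        have := ht i
        omega
      exact_mod_cast this
    have h2 : 1 < Real.exp (-((t i : ℝ) * u)) := by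
      rw [Real.one_lt_exp_iff]
      have := mul_neg_of_neg_of_pos h1 hu0
      linarith
    linarith

theorem pf_ND : P_ND := by
  intro d n B A t p hd hA ht hp
  obtain ⟨a, b, h1, h2, h3, h4⟩ := dl_rat n A t p (fun x => 1 / (x : ℝ) ^ d) (B ^ d) 1 hp (by
    intro x hx
    obtain ⟨hx0, hxB⟩ := hA x hx
    have hn : ((x.toNat : ℕ) : ℤ) = x := Int.toNat_of_nonneg hx0.le
    have hB : x.toNat ≤ B := by omega
    have hB1 : 1 ≤ B := by omega
    refine ⟨1, x.toNat ^ d, Nat.pow_pos (by omega), Nat.pow_le_pow_left hB d, ?_, ?_⟩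
    · rw [abs_one]
      push_cast
      have : (1 : ℤ) ≤ (B : ℤ) ^ d := one_le_pow₀ (by exact_mod_cast hB1)
      linarith
    · have h : ((x.toNat : ℕ) : ℝ) = (x : ℝ) := by exact_mod_cast hn
      push_cast
      rw [h])
  obtain ⟨g1, g2⟩ := nd_int n A t p (fun x => 1 / (x : ℝ) ^ d)
    (fun u => u ^ ((d : ℝ) - 1) / Real.Gamma d) hp (fun x hx => nd_inv d hd x (hA x hx).1)
  obtain ⟨σ, hσ⟩ := nd_sign t ht
  have hd' : (0 : ℝ) < d := by exact_mod_cast hd
  have hG : 0 < Real.Gamma d := Real.Gamma_pos_of_pos hd'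
  refine ⟨a, b, ?_, h1, ?_, ?_, h4⟩
  · rintro rfl
    rw [h4] at g2
    have hpos : ∀ u ∈ Set.Ioi (0 : ℝ), 0 < σ * (Real.exp (-((p : ℝ) * u)) *
        (u ^ ((d : ℝ) - 1) / Real.Gamma d * ∏ i, (1 - Real.exp (-((t i : ℝ) * u))))) := by
      intro u hu
      have hu0 : (0 : ℝ) < u := hu
      have h5 : 0 < Real.exp (-((p : ℝ) * u)) := Real.exp_pos _
      have h6 := hσ u hu
      have h7 : 0 < u ^ ((d : ℝ) - 1) / Real.Gamma d := div_pos (Real.rpow_pos_of_pos hu0 _) hG
      calc (0 : ℝ) < Real.exp (-((p : ℝ) * u)) * ((u ^ ((d : ℝ) - 1) / Real.Gamma d) *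
            (σ * ∏ i, (1 - Real.exp (-((t i : ℝ) * u))))) := mul_pos h5 (mul_pos h7 h6)
        _ = _ := by ring
    have h8 : 0 < ∫ u in Set.Ioi (0 : ℝ), σ * (Real.exp (-((p : ℝ) * u)) *
        (u ^ ((d : ℝ) - 1) / Real.Gamma d * ∏ i, (1 - Real.exp (-((t i : ℝ) * u))))) := by
      rw [MeasureTheory.setIntegral_pos_iff_support_of_nonneg_ae
        ((MeasureTheory.ae_restrict_iff' measurableSet_Ioi).2
          (Filter.Eventually.of_forall fun u hu => (hpos u hu).le)) (g1.const_mul σ)]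
      have h9 : (Function.support fun u : ℝ => σ * (Real.exp (-((p : ℝ) * u)) *
          (u ^ ((d : ℝ) - 1) / Real.Gamma d * ∏ i, (1 - Real.exp (-((t i : ℝ) * u)))))) ∩
            Set.Ioi (0 : ℝ) = Set.Ioi 0 :=
        Set.inter_eq_right.2 fun u hu => (hpos u hu).ne'
      rw [h9]
      simp
    rw [MeasureTheory.integral_const_mul, ← g2] at h8
    simp at h8
  · rwa [← pow_mul] at h2
  · push_cast at h3
    rw [← pow_mul] at h3
    simpa using h3

end Pool.Agent.H3.DPD
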